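import Pool.Agent.TH84.HC.Key

/-!
# The lower bound for the doubled half-line indicators, for every threshold
-/

set_option autoImplicit false

open MeasureTheory ProbabilityTheory
open scoped RealInnerProductSpace ENNReal

namespace Pool.Agent.Q266.WS

open Pool.Agent.PZ871 (E gm)
open Pool.Agent.TH84.HC

theorem Ph_pos (u : ℝ) : 0 < Ph u := by
  unfold Ph
  rw [Measure.real, ENNReal.toReal_pos_iff]
  refine ⟨?_, measure_lt_top _ _⟩
  rw [pos_iff_ne_zero]
  intro h
  have h2 := gaussianReal_absolutelyContinuous' 0 one_ne_zero h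
  simp at h2

theorem bpos (u : ℝ) : 0 < bu u := div_pos (ph_pos u) (Ph_pos u)

/-- the Mills ratio bound -/
theorem snonneg (u : ℝ) : 0 ≤ su u := by
  have h1 := mean_u u
  have h2 : ∫ x in Set.Iio u, x ∂g1 ≤ ∫ _ in Set.Iio u, u ∂g1 := by
    refine setIntegral_mono_on id_int.integrableOn (integrable_const u).integrableOn
      measurableSet_Iio (fun x hx => le_of_lt hx)
  have h3 : ∫ _ in Set.Iio u, u ∂g1 = Ph u * u := by
    unfold Ph
    simp [Measure.real]
  rw [h1, h3] at h2
  have h4 := Ph_pos u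
  unfold su bu
  have h5 : u + ph u / Ph u = (Ph u * u + ph u) / Ph u := by field_simp
  rw [h5]
  exact div_nonneg (by linarith) h4.le

theorem qpos (u : ℝ) : 0 < qu u := mul_pos (Ph_pos u) (Real.exp_pos _)

theorem base (u : ℝ) : Mo (mu (su u) (bu u) 0) (qu u) := by
  have e0 : su u - bu u = u := by unfold su; ring
  have hs := snonneg u
  rw [mu_zero, e0]
  have hsb : su u = u + bu u := rfl
  rw [hsb] at hs
  set b : ℝ := bu u with hb
  have hPp : 0 < Ph u := Ph_pos u
  have hbP : b * Ph u = ph u := by rw [hb]; unfold bu; field_simp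
  set ν : Measure ℝ := (g1.restrict (Set.Iio u)).map (fun x => x + b) with hν
  have hm : Measurable (fun x : ℝ => x + b) := by fun_prop
  have I0 : IntegrableOn (fun _ : ℝ => (1:ℝ)) (Set.Iio u) g1 := (integrable_const 1).integrableOn
  have I1 : IntegrableOn (fun x : ℝ => x) (Set.Iio u) g1 := id_int.integrableOn
  have I2 : IntegrableOn (fun x : ℝ => x ^ 2) (Set.Iio u) g1 := sq_int.integrableOn
  have hmass : g1 (Set.Iio u) = ENNReal.ofReal (Ph u) := by
    unfold Ph
    rw [Measure.real, ENNReal.ofReal_toReal (measure_ne_top _ _)]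
  have hexp : (0:ℝ) ≤ Real.exp (b ^ 2 / 2) := (Real.exp_pos _).le
  have i2 : Integrable (fun a : ℝ => a ^ 2) ν := by
    rw [hν, integrable_map_measure (by fun_prop) hm.aemeasurable]
    have e : ((fun a : ℝ => a ^ 2) ∘ fun x : ℝ => x + b) =
        fun x : ℝ => x ^ 2 + (2 * b) * x + b ^ 2 * 1 := by
      funext x
      simp only [Function.comp_apply]
      ring
    rw [e]
    exact (I2.add (I1.const_mul _)).add (I0.const_mul _)
  refine ⟨?_, (qpos u).le, ?_, ?_, ?_⟩
  · rw [Measure.smul_apply, hν, Measure.map_apply hm MeasurableSet.univ, Set.preimage_univ,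
      Measure.restrict_apply MeasurableSet.univ, Set.univ_inter, hmass, smul_eq_mul,
      ← ENNReal.ofReal_mul hexp]
    unfold qu
    congr 1
    ring
  · exact i2.smul_measure ENNReal.ofReal_ne_top
  · rw [integral_smul_measure, hν, integral_map hm.aemeasurable (by fun_prop)]
    have e : (fun x : ℝ => x + b) = fun x : ℝ => x + b * 1 := by funext x; ring
    rw [e, integral_add I1 (I0.const_mul _), integral_const_mul, mean_u, mass_u, hbP]
    simp
  · rw [integral_smul_measure, hν, integral_map hm.aemeasurable (by fun_prop),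
      ENNReal.toReal_ofReal hexp]
    have e : (fun x : ℝ => (x + b) ^ 2) = fun x : ℝ => x ^ 2 + (2 * b) * x + b ^ 2 * 1 := by
      funext x; ring
    have J : IntegrableOn (fun x : ℝ => x ^ 2 + (2 * b) * x) (Set.Iio u) g1 :=
      I2.add (I1.const_mul _)
    rw [e, integral_add J (I0.const_mul _), integral_add I2 (I1.const_mul _),
      integral_const_mul, integral_const_mul, sq_u, mean_u, mass_u, smul_eq_mul]
    unfold qu
    rw [← hb, mul_comm (Ph u)]
    refine mul_le_mul_of_nonneg_left ?_ hexp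
    have h1 : b ^ 2 * Ph u = b * ph u := by rw [← hbP]; ring
    rw [h1]
    have h2 := ph_pos u
    have h3 := mul_nonneg hs h2.le
    linarith

theorem mo_k (u : ℝ) (k : ℕ) : Mo (mu (su u) (bu u) k) (qu u ^ 2 ^ k) :=
  mo_all (base u) k

/-- the lower bound for the doubled indicators -/
theorem low (u : ℝ) (k : ℕ) :
    ENNReal.ofReal (3/4 * qu u ^ 2 ^ k * Real.exp (-(2 * (bu u * Real.sqrt 2 ^ k))))
    ≤ hk (su u) k (-2) := by
  have M := mo_k u k
  set Q : ℝ := qu u ^ 2 ^ k with hQ
  set b : ℝ := bu u * Real.sqrt 2 ^ k with hb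
  have hb0 : 0 < b := mul_pos (bpos u) (pow_pos sqrt2_pos _)
  have hfin : IsFiniteMeasure (mu (su u) (bu u) k) :=
    ⟨by rw [M.mass]; exact ENNReal.ofReal_lt_top⟩
  have hreal : (mu (su u) (bu u) k).real Set.univ = Q := by
    rw [Measure.real, M.mass, ENNReal.toReal_ofReal M.pos]
  have h1 : 4 * (mu (su u) (bu u) k).real {a : ℝ | 4 ≤ a ^ 2} ≤ Q :=
    le_trans (mul_meas_ge_le_integral_of_nonneg
      (Filter.Eventually.of_forall fun a : ℝ => sq_nonneg a) M.int 4) M.var
  have hms : MeasurableSet {a : ℝ | 4 ≤ a ^ 2} := measurableSet_le (by fun_prop) (by fun_prop)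
  have h2 : 3/4 * Q ≤ (mu (su u) (bu u) k).real {a : ℝ | 4 ≤ a ^ 2}ᶜ := by
    have := measureReal_compl (μ := mu (su u) (bu u) k) hms
    rw [this, hreal]
    linarith
  have h3 : (mu (su u) (bu u) k) {a : ℝ | 4 ≤ a ^ 2}ᶜ ≤
      ENNReal.ofReal (Real.exp (2 * b)) * hk (su u) k (-2) := by
    have e := lint_mu (su u) (bu u) k (({a : ℝ | 4 ≤ a ^ 2}ᶜ).indicator 1)
      (measurable_one.indicator hms.compl)
    rw [lintegral_indicator_one hms.compl] at e
    rw [e]
    calc ∫⁻ a, hk (su u) k a * ENNReal.ofReal (Real.exp (bu u * Real.sqrt 2 ^ k * a)) *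
          ({a : ℝ | 4 ≤ a ^ 2}ᶜ).indicator 1 a ∂g1
        ≤ ∫⁻ _, ENNReal.ofReal (Real.exp (2 * b)) * hk (su u) k (-2) ∂g1 := by
          refine lintegral_mono fun a => ?_
          by_cases ha : a ∈ {a : ℝ | 4 ≤ a ^ 2}ᶜ
          · rw [Set.indicator_of_mem ha, Pi.one_apply, mul_one, mul_comm]
            have ha' : a ^ 2 < 4 := not_le.1 ha
            have h4 : -2 ≤ a := by nlinarith
            have h5 : a ≤ 2 := by nlinarith
            refine mul_le_mul' (ENNReal.ofReal_le_ofReal (Real.exp_le_exp.2 ?_))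
              (hk_anti (su u) k h4)
            nlinarith
          · rw [Set.indicator_of_notMem ha, mul_zero]
            exact zero_le
      _ = ENNReal.ofReal (Real.exp (2 * b)) * hk (su u) k (-2) := by simp
  have h4 : ENNReal.ofReal (3/4 * Q) ≤ ENNReal.ofReal (Real.exp (2 * b)) * hk (su u) k (-2) := by
    refine le_trans ?_ h3
    rw [← ENNReal.ofReal_toReal (measure_ne_top (mu (su u) (bu u) k) {a : ℝ | 4 ≤ a ^ 2}ᶜ)]
    exact ENNReal.ofReal_le_ofReal h2
  have hQ0 : 0 ≤ Q := M.pos
  calc ENNReal.ofReal (3/4 * Q * Real.exp (-(2 * b)))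
      = ENNReal.ofReal (3/4 * Q) * ENNReal.ofReal (Real.exp (-(2 * b))) :=
        ENNReal.ofReal_mul (by positivity)
    _ ≤ ENNReal.ofReal (Real.exp (2 * b)) * hk (su u) k (-2) *
          ENNReal.ofReal (Real.exp (-(2 * b))) := mul_le_mul' h4 le_rfl
    _ = (ENNReal.ofReal (Real.exp (2 * b)) * ENNReal.ofReal (Real.exp (-(2 * b)))) *
          hk (su u) k (-2) := by ring
    _ = hk (su u) k (-2) := by
        rw [← ENNReal.ofReal_mul (Real.exp_pos _).le, ← Real.exp_add]
        simp

end Pool.Agent.Q266.WS
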