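import Pool.Agent.Q266.WS.Strict

/-!
# The strict comparison for one-sided events
-/

set_option autoImplicit false

open MeasureTheory ProbabilityTheory
open scoped RealInnerProductSpace ENNReal

namespace Pool.Agent.Q266.WS

open Pool.Agent.PZ871 (E gm)
open Pool.Agent.TH84.HC

theorem hk_pair (c a b : ℝ) :
    hk c 0 ((a + b) / Real.sqrt 2) * hk c 0 ((a - b) / Real.sqrt 2) =
      bxl (Real.sqrt 2 * c - a) b := by
  have h2 := sqrt2_pos
  have e1 : (a + b) / Real.sqrt 2 < c ↔ b < Real.sqrt 2 * c - a := by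
    rw [div_lt_iff₀ h2]
    constructor <;> intro h <;> nlinarith
  have e2 : (a - b) / Real.sqrt 2 < c ↔ -(Real.sqrt 2 * c - a) < b := by
    rw [div_lt_iff₀ h2]
    constructor <;> intro h <;> nlinarith
  rw [hk_zero, hk_zero]
  unfold bxl
  by_cases h : |b| < Real.sqrt 2 * c - a
  · rw [if_pos h]
    rw [abs_lt] at h
    rw [if_pos (e1.2 h.2), if_pos (e2.2 h.1), one_mul]
  · rw [if_neg h]
    rw [abs_lt, not_and_or] at h
    rcases h with h | h
    · rw [if_neg (fun h' => h (e2.1 h')), mul_zero]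
    · rw [if_neg (fun h' => h (e1.1 h')), zero_mul]

theorem hk_one (c a : ℝ) : hk c 1 a = ∫⁻ t, bxl (Real.sqrt 2 * c - a) t ∂g1 := by
  rw [hk_succ]
  simp only [hk_pair]

theorem orth_meas {n : ℕ} {ι : Type} [Fintype ι] (φ : ι → E n) (c : ℝ) :
    MeasurableSet {y : E n | ∀ i, ⟪y, φ i⟫ < c} := by
  rw [show {y : E n | ∀ i, ⟪y, φ i⟫ < c} = ⋂ i, {y : E n | ⟪y, φ i⟫ < c} by ext; simp]
  exact MeasurableSet.iInter fun i => measurableSet_lt (by fun_prop) measurable_const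

theorem JJ_orth {n : ℕ} {ι : Type} [Fintype ι] (φ : ι → E n) (c : ℝ) :
    JJ φ c 0 0 = gm n {y : E n | ∀ i, ⟪y, φ i⟫ < c} := by
  rw [JJ_zero, ← lintegral_indicator_one (orth_meas φ c)]
  refine lintegral_congr fun y => ?_
  by_cases h : y ∈ {y : E n | ∀ i, ⟪y, φ i⟫ < c}
  · rw [Set.indicator_of_mem h, Pi.one_apply]
    refine Finset.prod_eq_one fun i _ => ?_
    rw [hk_zero, if_pos (h i)]
  · rw [Set.indicator_of_notMem h]
    simp only [Set.mem_ofPred_eq, not_forall] at h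
    obtain ⟨i, hi⟩ := h
    refine Finset.prod_eq_zero (Finset.mem_univ i) ?_
    rw [hk_zero, if_neg hi]

theorem first_step {n : ℕ} {ι : Type} [Fintype ι] (φ : ι → E n) (hφ : ∀ i, ‖φ i‖ = 1)
    (c : ℝ) (i j : ι) (hij : i ≠ j) (hρ : ⟪φ i, φ j⟫ ≠ 0)
    (hpos : gm n {y : E n | ∀ i, ⟪y, φ i⟫ < Real.sqrt 2 * c} ≠ 0) :
    JJ φ c 1 0 < (JJ φ c 0 0) ^ 2 := by
  set F : E n → ℝ≥0∞ := fun y => ∏ i, hk c 0 ⟪y, φ i⟫ with hF
  have hFm : Measurable F := prod_meas φ c 0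
  set a : ℝ := 1 / Real.sqrt 2 with ha
  have haa : a ^ 2 + a ^ 2 = 1 := by
    rw [ha, div_pow, Real.sq_sqrt (by norm_num)]
    norm_num
  have hrot := Pool.Agent.PZ871.M_grot.grot n a a haa
  have hΨ : Measurable (fun p : E n × E n => F p.1 * F p.2) :=
    (hFm.comp measurable_fst).mul (hFm.comp measurable_snd)
  have h1 : (JJ φ c 0 0) ^ 2 =
      ∫⁻ u, ∫⁻ w, F (a • u + a • w) * F (a • u - a • w) ∂(gm n) ∂(gm n) := by
    have h2 : (JJ φ c 0 0) ^ 2 = ∫⁻ p, F p.1 * F p.2 ∂((gm n).prod (gm n)) := by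
      rw [lintegral_prod_mul hFm.aemeasurable hFm.aemeasurable, sq, JJ_zero]
    rw [h2, ← hrot.lintegral_comp hΨ]
    exact lintegral_prod _ (hΨ.comp hrot.measurable).aemeasurable
  have h3 : ∀ u w : E n, F (a • u + a • w) * F (a • u - a • w) =
      ∏ i, bxl (Real.sqrt 2 * c - ⟪u, φ i⟫) ⟪w, φ i⟫ := by
    intro u w
    simp only [hF]
    rw [← Finset.prod_mul_distrib]
    refine Finset.prod_congr rfl fun i _ => ?_
    have q1 : ⟪a • u + a • w, φ i⟫ = (⟪u, φ i⟫ + ⟪w, φ i⟫) / Real.sqrt 2 := by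
      rw [inner_add_left, inner_smul_left, inner_smul_left, ha]
      simp only [conj_trivial]
      ring
    have q2 : ⟪a • u - a • w, φ i⟫ = (⟪u, φ i⟫ - ⟪w, φ i⟫) / Real.sqrt 2 := by
      rw [inner_sub_left, inner_smul_left, inner_smul_left, ha]
      simp only [conj_trivial]
      ring
    rw [q1, q2, hk_pair]
  rw [h1]
  simp only [h3]
  rw [JJ_zero]
  simp only [hk_one]
  refine lintegral_strict_mono_of_ae_le_of_ae_lt_on ?_ ?_ (Filter.Eventually.of_forall fun u => ?_)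
    hpos (Filter.Eventually.of_forall fun u hu => ?_)
  · have hm : Measurable (fun p : E n × E n =>
        ∏ i, bxl (Real.sqrt 2 * c - ⟪p.1, φ i⟫) ⟪p.2, φ i⟫) := by
      refine Finset.measurable_prod _ fun i _ => ?_
      unfold bxl
      exact Measurable.ite (measurableSet_lt (by fun_prop) (by fun_prop)) measurable_const
        measurable_const
    exact (Measurable.lintegral_prod_right hm).aemeasurable
  · have h5 : ∫⁻ u, ∏ i, ∫⁻ t, bxl (Real.sqrt 2 * c - ⟪u, φ i⟫) t ∂g1 ∂(gm n) ≤ 1 := by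
      calc ∫⁻ u, ∏ i, ∫⁻ t, bxl (Real.sqrt 2 * c - ⟪u, φ i⟫) t ∂g1 ∂(gm n) ≤ ∫⁻ _, 1 ∂(gm n) := by
            refine lintegral_mono fun u => Finset.prod_le_one' fun i _ => ?_
            calc ∫⁻ t, bxl (Real.sqrt 2 * c - ⟪u, φ i⟫) t ∂g1 ≤ ∫⁻ _, 1 ∂g1 :=
                  lintegral_mono fun t => bxl_LC.le1 t
              _ = 1 := by simp
        _ = 1 := by simp
    exact ne_top_of_le_ne_top ENNReal.one_ne_top h5
  · exact sidak Finset.univ (fun i => bxl (Real.sqrt 2 * c - ⟪u, φ i⟫)) φ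
      (fun i _ => bxl_LC) (fun i _ => hφ i)
  · exact sidak_strict φ hφ (fun i => Real.sqrt 2 * c - ⟪u, φ i⟫)
      (fun i => by have := hu i; linarith) i j hij hρ

/-- **The strict comparison.** -/
theorem gap {n : ℕ} {ι : Type} [Fintype ι] (φ : ι → E n) (hφ : ∀ i, ‖φ i‖ = 1) (x : E n)
    (hx : ∀ i, ⟪x, φ i⟫ = 1) (hxn : ‖x‖ ^ 2 ≤ Fintype.card ι) (c : ℝ) (i j : ι) (hij : i ≠ j)
    (hρ : ⟪φ i, φ j⟫ ≠ 0) :
    ENNReal.ofReal (Ph c ^ Fintype.card ι) < gm n {y : E n | ∀ i, ⟪y, φ i⟫ < c} := by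
  have hpos : gm n {y : E n | ∀ i, ⟪y, φ i⟫ < Real.sqrt 2 * c} ≠ 0 := by
    have h := key φ hφ x hx hxn (Real.sqrt 2 * c) 0
    rw [JJ_orth] at h
    intro h0
    rw [h0] at h
    have h1 : 0 < Ph (Real.sqrt 2 * c) ^ (Fintype.card ι * 2 ^ 0) := pow_pos (Ph_pos _) _
    have h2 := ENNReal.ofReal_pos.2 h1
    exact absurd h (not_le.2 h2)
  have h1 := first_step φ hφ c i j hij hρ hpos
  have h2 := key φ hφ x hx hxn c 1
  have h3 := lt_of_le_of_lt h2 h1
  rw [pow_one, pow_mul, ENNReal.ofReal_pow (pow_nonneg (Ph_pos c).le _), JJ_orth] at h3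
  exact lt_of_pow_lt_pow_left' 2 h3

end Pool.Agent.Q266.WS
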