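import Pool.Agent.Q266.WS.Gap

/-!
# Multivariate Gaussian measures with an admissible covariance matrix
-/

set_option autoImplicit false

open MeasureTheory ProbabilityTheory
open scoped RealInnerProductSpace ENNReal MatrixOrder

namespace Pool.Agent.Q266.WS

open Pool.Agent.PZ871 (E gm)
open Pool.Agent.TH84.HC

/-- the all-ones matrix -/
def ones (m : ℕ) : Matrix (Fin m) (Fin m) ℝ := Matrix.of fun _ _ => 1

/-- correlation matrices -/
def IsCorr {m : ℕ} (R : Matrix (Fin m) (Fin m) ℝ) : Prop := R.PosSemidef ∧ ∀ i, R i i = 1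

/-- admissible matrices: correlation matrices `R` with `R - J / m` positive semidefinite -/
def Admissible {m : ℕ} (R : Matrix (Fin m) (Fin m) ℝ) : Prop :=
  IsCorr R ∧ (R - (1 / (m : ℝ)) • ones m).PosSemidef

/-- the Gaussian vector with a given Gram matrix -/
theorem map_gram {n m : ℕ} (φ : Fin m → E n) (R : Matrix (Fin m) (Fin m) ℝ) (hR : R.PosSemidef)
    (h : ∀ i j, ⟪φ i, φ j⟫ = R i j) :
    (gm n).map (fun y => (WithLp.toLp 2 (fun i => ⟪y, φ i⟫) : E m)) =
      multivariateGaussian 0 R := by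
  have hm : Measurable (fun y : E n => (WithLp.toLp 2 (fun i => ⟪y, φ i⟫) : E m)) := by fun_prop
  have : IsProbabilityMeasure ((gm n).map (fun y => (WithLp.toLp 2 (fun i => ⟪y, φ i⟫) : E m))) :=
    Measure.isProbabilityMeasure_map hm.aemeasurable
  apply Measure.ext_of_charFun
  funext t
  rw [charFun_multivariateGaussian hR, charFun_apply, integral_map hm.aemeasurable (by fun_prop)]
  have e1 : ∀ y : E n, ⟪(WithLp.toLp 2 (fun i => ⟪y, φ i⟫) : E m), t⟫ = ⟪y, ∑ i, t i • φ i⟫ := by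
    intro y
    rw [inner_sum, PiLp.inner_apply]
    refine Finset.sum_congr rfl fun i _ => ?_
    rw [inner_smul_right]
    simp
  simp only [e1]
  have e2 : ∫ y, Complex.exp (⟪y, ∑ i, t i • φ i⟫ * Complex.I) ∂(gm n) =
      charFun (gm n) (∑ i, t i • φ i) := by rw [charFun_apply]
  rw [e2]
  unfold gm
  rw [charFun_stdGaussian]
  congr 1
  have e3 : ‖∑ i, t i • φ i‖ ^ 2 = (t : Fin m → ℝ) ⬝ᵥ R.mulVec t := by
    rw [← real_inner_self_eq_norm_sq, sum_inner]
    simp only [dotProduct, Matrix.mulVec]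
    refine Finset.sum_congr rfl fun i _ => ?_
    rw [inner_smul_left, inner_sum]
    congr 1
    refine Finset.sum_congr rfl fun j _ => ?_
    rw [inner_smul_right, h, mul_comm]
  have e4 : ((‖∑ i, t i • φ i‖ : ℂ)) ^ 2 = (((t : Fin m → ℝ) ⬝ᵥ R.mulVec t : ℝ) : ℂ) := by
    rw [← e3]
    push_cast
    rfl
  rw [e4]
  simp
  ring

/-- vectors realising an admissible matrix -/
theorem exists_vectors {m : ℕ} (hm : 0 < m) (R : Matrix (Fin m) (Fin m) ℝ) (hR : Admissible R) :
    ∃ (φ : Fin m → E (m + 1)) (x : E (m + 1)), (∀ i j, ⟪φ i, φ j⟫ = R i j) ∧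
      (∀ i, ⟪x, φ i⟫ = 1) ∧ ‖x‖ ^ 2 ≤ m := by
  have hm0 : (0:ℝ) < m := by exact_mod_cast hm
  have hsq : Real.sqrt m * Real.sqrt m = m := Real.mul_self_sqrt hm0.le
  have hs0 : 0 < Real.sqrt m := Real.sqrt_pos.2 hm0
  obtain ⟨B, hB⟩ := CStarAlgebra.nonneg_iff_eq_star_mul_self.mp hR.2.nonneg
  rw [Matrix.star_eq_conjTranspose] at hB
  have hB' : ∀ i j, R i j = 1 / m + ∑ k, B k i * B k j := by
    intro i j
    have := congrFun (congrFun hB i) j
    simp only [ones, Matrix.sub_apply, Matrix.smul_apply, Matrix.of_apply, smul_eq_mul, mul_one,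
      Matrix.mul_apply, Matrix.conjTranspose_apply, star_trivial] at this
    linarith
  refine ⟨fun i => WithLp.toLp 2 (Fin.cons (1 / Real.sqrt m) (fun k => B k i)),
    WithLp.toLp 2 (Fin.cons (Real.sqrt m) (fun _ => 0)), ?_, ?_, ?_⟩
  · intro i j
    rw [PiLp.inner_apply, Fin.sum_univ_succ, hB']
    simp only [Fin.cons_zero, Fin.cons_succ, RCLike.inner_apply, conj_trivial]
    congr 1
    · rw [div_mul_div_comm, hsq, one_mul]
    · exact Finset.sum_congr rfl fun k _ => mul_comm _ _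
  · intro i
    rw [PiLp.inner_apply, Fin.sum_univ_succ]
    simp only [Fin.cons_zero, Fin.cons_succ, RCLike.inner_apply, conj_trivial]
    simp
    field_simp
  · rw [EuclideanSpace.real_norm_sq_eq, Fin.sum_univ_succ]
    simp only [Fin.cons_zero, Fin.cons_succ]
    rw [sq, hsq]
    simp

theorem box_meas {m : ℕ} (c : ℝ) : MeasurableSet {x : E m | ∀ i, x i ≤ c} := by
  rw [show {x : E m | ∀ i, x i ≤ c} = ⋂ i, {x : E m | x i ≤ c} by ext; simp]
  exact MeasurableSet.iInter fun i => measurableSet_le (by fun_prop) measurable_const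

/-- **The strict comparison for an admissible matrix other than the identity.** -/
theorem strict_R {m : ℕ} (hm : 0 < m) (R : Matrix (Fin m) (Fin m) ℝ) (hR : Admissible R)
    (hne : R ≠ 1) (c : ℝ) :
    (gaussianReal 0 1 (Set.Iic c)) ^ m < multivariateGaussian 0 R {x : E m | ∀ i, x i ≤ c} := by
  obtain ⟨φ, x, hφ, hx, hxn⟩ := exists_vectors hm R hR
  have hφ1 : ∀ i, ‖φ i‖ = 1 := by
    intro i
    have h1 := hφ i i
    rw [real_inner_self_eq_norm_sq, hR.1.2 i] at h1
    nlinarith [norm_nonneg (φ i)]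
  have hij : ∃ i j, i ≠ j ∧ ⟪φ i, φ j⟫ ≠ 0 := by
    by_contra hcon
    push Not at hcon
    apply hne
    ext i j
    by_cases h : i = j
    · rw [h, hR.1.2 j, Matrix.one_apply_eq]
    · rw [Matrix.one_apply_ne h, ← hφ i j, hcon i j h]
  obtain ⟨i, j, hij, hρ⟩ := hij
  have h1 := gap φ hφ1 x hx (by simpa using hxn) c i j hij hρ
  rw [Fintype.card_fin] at h1
  have h2 : ENNReal.ofReal (Ph c ^ m) = (gaussianReal 0 1 (Set.Iic c)) ^ m := by
    rw [ENNReal.ofReal_pow (Ph_pos c).le]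
    congr 1
    unfold Ph
    rw [Measure.real, ENNReal.ofReal_toReal (measure_ne_top _ _)]
    refine measure_congr ?_
    exact Iio_ae_eq_Iic' (g1_null c)
  rw [h2] at h1
  refine lt_of_lt_of_le h1 ?_
  rw [← map_gram φ R hR.1.1 hφ, Measure.map_apply (by fun_prop) (box_meas c)]
  refine measure_mono fun y hy i => ?_
  exact (hy i).le

theorem eq_one {m : ℕ} (c : ℝ) :
    multivariateGaussian 0 (1 : Matrix (Fin m) (Fin m) ℝ) {x : E m | ∀ i, x i ≤ c} =
      (gaussianReal 0 1 (Set.Iic c)) ^ m := by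
  rw [multivariateGaussian_zero_one, ← map_pi_eq_stdGaussian,
    Measure.map_apply (by fun_prop) (box_meas c)]
  have e : (WithLp.toLp 2 : (Fin m → ℝ) → E m) ⁻¹' {x : E m | ∀ i, x i ≤ c} =
      Set.pi Set.univ (fun _ => Set.Iic c) := by
    ext x
    simp [Pi.le_def]
  rw [e, Measure.pi_pi]
  simp

end Pool.Agent.Q266.WS
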