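import Pool.Agent.Q266.WS.Base

/-!
# The doubled products: lower bound with the exact constant
-/

set_option autoImplicit false

open MeasureTheory ProbabilityTheory
open scoped RealInnerProductSpace ENNReal

namespace Pool.Agent.Q266.WS

open Pool.Agent.PZ871 (E gm)
open Pool.Agent.TH84.HC

theorem JJ_zero {n : ℕ} {ι : Type} [Fintype ι] (φ : ι → E n) (c : ℝ) (k : ℕ) :
    JJ φ c k 0 = ∫⁻ y, ∏ i, hk c k ⟪y, φ i⟫ ∂(gm n) := by
  unfold JJ
  refine lintegral_congr fun y => ?_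
  simp

theorem JJ_shift {n : ℕ} {ι : Type} [Fintype ι] (φ : ι → E n) (x : E n)
    (hx : ∀ i, ⟪x, φ i⟫ = 1) (c τ : ℝ) (k : ℕ) :
    JJ φ c k 0 = ENNReal.ofReal (Real.exp (-(‖(Real.sqrt 2 ^ k * τ) • x‖ ^ 2 / 2))) *
      JJ φ (c + τ) k ((Real.sqrt 2 ^ k * τ) • x) := by
  set v : E n := (Real.sqrt 2 ^ k * τ) • x with hv
  set F : E n → ℝ≥0∞ := fun y => ∏ i, hk c k ⟪y, φ i⟫ with hF
  have hFm : Measurable F := prod_meas φ c k
  have h1 := cm_lint n v (fun g => F (g - v)) (hFm.comp (by fun_prop))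
  simp only [add_sub_cancel_right] at h1
  have hm2 : Measurable (fun y : E n => (∏ i, hk (c + τ) k ⟪y, φ i⟫) *
      ENNReal.ofReal (Real.exp ⟪v, y⟫)) := (prod_meas φ (c + τ) k).mul (by fun_prop)
  rw [JJ_zero, h1]
  unfold JJ
  rw [← lintegral_const_mul _ hm2]
  refine lintegral_congr fun g => ?_
  have e1 : F (g - v) = ∏ i, hk (c + τ) k ⟪g, φ i⟫ := by
    simp only [hF]
    refine Finset.prod_congr rfl fun i _ => ?_
    rw [hk_shift]
    congr 1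
    rw [inner_sub_left, hv, inner_smul_left, hx i]
    simp
    ring
  rw [e1, sub_eq_add_neg, Real.exp_add, ENNReal.ofReal_mul (Real.exp_pos _).le]
  ring

theorem JJ_iter {n : ℕ} {ι : Type} [Fintype ι] (φ : ι → E n) (hφ : ∀ i, ‖φ i‖ = 1) (c : ℝ)
    (j k : ℕ) : JJ φ c (j + k) 0 ≤ (JJ φ c j 0) ^ 2 ^ k := by
  induction k with
  | zero => simp
  | succ k ih =>
    have h := J_step φ hφ c (j + k) 0
    rw [smul_zero] at h
    calc JJ φ c (j + (k + 1)) 0 ≤ (JJ φ c (j + k) 0) ^ 2 := h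
      _ ≤ ((JJ φ c j 0) ^ 2 ^ k) ^ 2 := pow_le_pow_left' ih 2
      _ = _ := by rw [← pow_mul, ← pow_succ]

theorem JJ_le1 {n : ℕ} {ι : Type} [Fintype ι] (φ : ι → E n) (c : ℝ) (k : ℕ) :
    JJ φ c k 0 ≤ 1 := by
  rw [JJ_zero]
  calc ∫⁻ y, ∏ i, hk c k ⟪y, φ i⟫ ∂(gm n) ≤ ∫⁻ _, 1 ∂(gm n) :=
        lintegral_mono fun y => Finset.prod_le_one' fun i _ => hk_le1 _ _ _
    _ = 1 := by simp

theorem lowA {n : ℕ} {ι : Type} [Fintype ι] (φ : ι → E n) (hφ : ∀ i, ‖φ i‖ = 1) (x : E n)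
    (hx : ∀ i, ⟪x, φ i⟫ = 1) (c : ℝ) (k : ℕ) :
    ENNReal.ofReal (Real.exp (-((bu c + 3 / Real.sqrt 2 ^ k) ^ 2 * ‖x‖ ^ 2 / 2)) ^ 2 ^ k *
      (3/4 * qu c ^ 2 ^ k * Real.exp (-(2 * (bu c * Real.sqrt 2 ^ k))) * p1) ^ Fintype.card ι) ≤
      JJ φ c k 0 := by
  set τ : ℝ := bu c + 3 / Real.sqrt 2 ^ k with hτ
  have h3 := J_low φ hφ (c + τ) k ((Real.sqrt 2 ^ k * τ) • x)
  have h4 : hk (c + τ) k 1 = hk (su c) k (-2) := by
    have : c + τ = su c + 3 / Real.sqrt 2 ^ k := by rw [hτ]; unfold su; ring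
    rw [this, hk_shift]
    congr 1
    have : Real.sqrt 2 ^ k ≠ 0 := (pow_pos sqrt2_pos k).ne'
    field_simp
    norm_num
  rw [h4] at h3
  have h5 := low c k
  have q0 : 0 < qu c := qpos c
  have p0 : 0 < p1 := p1_pos
  rw [JJ_shift φ x hx c τ k]
  rw [ENNReal.ofReal_mul (by positivity)]
  refine mul_le_mul' (le_of_eq ?_) ?_
  · congr 1
    rw [← Real.exp_nat_mul]
    congr 1
    rw [norm_smul, mul_pow, Real.norm_eq_abs, sq_abs, mul_pow, ← pow_mul, mul_comm k 2, pow_mul,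
      Real.sq_sqrt (by norm_num)]
    push_cast
    ring
  · rw [ENNReal.ofReal_pow (by positivity), ENNReal.ofReal_mul (by positivity)]
    exact (pow_le_pow_left' (mul_le_mul' h5 le_rfl) _).trans h3

/-- **The lower bound.** -/
theorem key {n : ℕ} {ι : Type} [Fintype ι] (φ : ι → E n) (hφ : ∀ i, ‖φ i‖ = 1) (x : E n)
    (hx : ∀ i, ⟪x, φ i⟫ = 1) (hxn : ‖x‖ ^ 2 ≤ Fintype.card ι) (c : ℝ) (j : ℕ) :
    ENNReal.ofReal (Ph c ^ (Fintype.card ι * 2 ^ j)) ≤ JJ φ c j 0 := by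
  set m : ℕ := Fintype.card ι with hm
  set P : ℝ := (JJ φ c j 0).toReal with hP
  have hfin : JJ φ c j 0 ≠ ⊤ := ne_top_of_le_ne_top ENNReal.one_ne_top (JJ_le1 φ c j)
  have hPof : JJ φ c j 0 = ENNReal.ofReal P := (ENNReal.ofReal_toReal hfin).symm
  have q0 : 0 < qu c := qpos c
  have p0 : 0 < p1 := p1_pos
  have f0 : 0 < Ph c := Ph_pos c
  have hk' : ∀ k : ℕ, Real.exp (-((bu c + 3 / Real.sqrt 2 ^ (j + k)) ^ 2 * ‖x‖ ^ 2 / 2)) ^ 2 ^ (j + k) *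
      (3/4 * qu c ^ 2 ^ (j + k) * Real.exp (-(2 * (bu c * Real.sqrt 2 ^ (j + k)))) * p1) ^ m ≤
      P ^ 2 ^ k := by
    intro k
    have h1 := (lowA φ hφ x hx c (j + k)).trans (JJ_iter φ hφ c j k)
    rw [hPof, ← ENNReal.ofReal_pow ENNReal.toReal_nonneg] at h1
    exact (ENNReal.ofReal_le_ofReal_iff (pow_nonneg ENNReal.toReal_nonneg _)).1 h1
  have hPpos : 0 < P := by
    have : 0 < P ^ 2 ^ 0 := lt_of_lt_of_le (by positivity) (hk' 0)
    simpa using this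
  have hlog : ∀ k : ℕ, (-((bu c + 3 * ((Real.sqrt 2)⁻¹) ^ (j + k)) ^ 2 * ‖x‖ ^ 2 / 2)) +
      m * (Real.log (3/4 * p1) * (((Real.sqrt 2)⁻¹) ^ (j + k)) ^ 2 + Real.log (qu c) -
        2 * bu c * ((Real.sqrt 2)⁻¹) ^ (j + k)) ≤ (1 / 2 ^ j) * Real.log P := by
    intro k
    have h2 := Real.log_le_log (by positivity) (hk' k)
    have e0 : Real.log (3/4 * qu c ^ 2 ^ (j + k) *
        Real.exp (-(2 * (bu c * Real.sqrt 2 ^ (j + k)))) * p1) =
        Real.log (3/4 * p1) + (((2 ^ (j + k) : ℕ) : ℝ) * Real.log (qu c) +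
          -(2 * (bu c * Real.sqrt 2 ^ (j + k)))) := by
      have h34 : (0:ℝ) < 3/4 * p1 := by positivity
      have hqe : 0 < qu c ^ 2 ^ (j + k) * Real.exp (-(2 * (bu c * Real.sqrt 2 ^ (j + k)))) := by
        positivity
      rw [show 3/4 * qu c ^ 2 ^ (j + k) * Real.exp (-(2 * (bu c * Real.sqrt 2 ^ (j + k)))) * p1 =
        (3/4 * p1) * (qu c ^ 2 ^ (j + k) * Real.exp (-(2 * (bu c * Real.sqrt 2 ^ (j + k))))) by ring,
        Real.log_mul h34.ne' hqe.ne', Real.log_mul (pow_pos q0 _).ne' (Real.exp_pos _).ne',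
        Real.log_pow, Real.log_exp]
    rw [Real.log_mul (by positivity) (by positivity), Real.log_pow, Real.log_exp, Real.log_pow,
      Real.log_pow, e0] at h2
    set r : ℝ := ((Real.sqrt 2)⁻¹) ^ (j + k) with hr
    have hr0 : 0 < r := pow_pos (inv_pos.2 sqrt2_pos) (j + k)
    have hR : Real.sqrt 2 ^ (j + k) = r⁻¹ := by rw [hr, inv_pow, inv_inv]
    have hN : ((2 ^ (j + k) : ℕ) : ℝ) = (r⁻¹) ^ 2 := by
      rw [← hR, ← pow_mul, mul_comm, pow_mul, Real.sq_sqrt (by norm_num)]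
      push_cast
      rfl
    have hN2 : ((2 ^ k : ℕ) : ℝ) = (1 / 2 ^ j) * (r⁻¹) ^ 2 := by
      rw [← hN]
      push_cast
      rw [pow_add]
      field_simp
    rw [hN2, hN, hR] at h2
    have h3 := mul_le_mul_of_nonneg_left h2 (sq_nonneg r)
    have hrr : r * r⁻¹ = 1 := mul_inv_cancel₀ hr0.ne'
    have e1 : r ^ 2 * (r⁻¹ ^ 2 * -((bu c + 3 / r⁻¹) ^ 2 * ‖x‖ ^ 2 / 2) +
        ↑m * (Real.log (3 / 4 * p1) + (r⁻¹ ^ 2 * Real.log (qu c) + -(2 * (bu c * r⁻¹))))) =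
        (-((bu c + 3 * r) ^ 2 * ‖x‖ ^ 2 / 2)) +
      m * (Real.log (3/4 * p1) * r ^ 2 + Real.log (qu c) - 2 * bu c * r) := by
      field_simp
      ring
    have e2 : r ^ 2 * (1 / 2 ^ j * r⁻¹ ^ 2 * Real.log P) = 1 / 2 ^ j * Real.log P := by
      field_simp
    rw [e1, e2] at h3
    exact h3
  have hr0 : Filter.Tendsto (fun k : ℕ => ((Real.sqrt 2)⁻¹) ^ k) Filter.atTop (nhds 0) := by
    apply tendsto_pow_atTop_nhds_zero_of_lt_one (inv_nonneg.2 sqrt2_pos.le)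
    apply inv_lt_one_of_one_lt₀
    rw [Real.lt_sqrt (by norm_num)]
    norm_num
  have hr : Filter.Tendsto (fun k : ℕ => ((Real.sqrt 2)⁻¹) ^ (j + k)) Filter.atTop (nhds 0) := by
    have := hr0.comp (Filter.tendsto_add_atTop_nat j)
    refine this.congr fun k => ?_
    simp only [Function.comp_apply]
    rw [add_comm]
  have hcont : Continuous (fun r : ℝ => (-((bu c + 3 * r) ^ 2 * ‖x‖ ^ 2 / 2)) +
      m * (Real.log (3/4 * p1) * r ^ 2 + Real.log (qu c) - 2 * bu c * r)) := by fun_prop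
  have hlim := (hcont.tendsto 0).comp hr
  have hle : (-((bu c + 3 * 0) ^ 2 * ‖x‖ ^ 2 / 2)) +
      m * (Real.log (3/4 * p1) * 0 ^ 2 + Real.log (qu c) - 2 * bu c * 0) ≤
      (1 / 2 ^ j) * Real.log P :=
    le_of_tendsto' hlim hlog
  have hq : Real.log (qu c) = Real.log (Ph c) + bu c ^ 2 / 2 := by
    unfold qu
    rw [Real.log_mul f0.ne' (Real.exp_pos _).ne', Real.log_exp]
  rw [hq] at hle
  have h9 : (m : ℝ) * Real.log (Ph c) ≤ (1 / 2 ^ j) * Real.log P := by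
    have hb : bu c ^ 2 * ‖x‖ ^ 2 / 2 ≤ bu c ^ 2 * m / 2 := by
      have := mul_le_mul_of_nonneg_left hxn (sq_nonneg (bu c))
      linarith
    nlinarith [hle, hb]
  have h10 : ((m * 2 ^ j : ℕ) : ℝ) * Real.log (Ph c) ≤ Real.log P := by
    have h2j : (0:ℝ) < 2 ^ j := by positivity
    have := mul_le_mul_of_nonneg_left h9 h2j.le
    have e3 : (2:ℝ) ^ j * (1 / 2 ^ j * Real.log P) = Real.log P := by field_simp
    rw [e3] at this
    push_cast
    linarith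
  rw [hPof]
  refine ENNReal.ofReal_le_ofReal ?_
  have h11 := Real.exp_le_exp.2 h10
  rw [Real.exp_log hPpos, Real.exp_nat_mul, Real.exp_log f0] at h11
  exact h11

end Pool.Agent.Q266.WS
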