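import Pool.Agent.Q266.WS.Mgf

/-!
# The expected maximum
-/

set_option autoImplicit false

open MeasureTheory ProbabilityTheory
open scoped RealInnerProductSpace ENNReal MatrixOrder

namespace Pool.Agent.Q266.WS

open Pool.Agent.PZ871 (E gm)
open Pool.Agent.TH84.HC

theorem max_int {m : ℕ} (hm : 0 < m) (R : Matrix (Fin m) (Fin m) ℝ) (hR : IsCorr R) :
    Integrable (fun x : E m => ⨆ i, x i) (multivariateGaussian 0 R) := by
  have h1 : Integrable (fun x : E m => ∑ i, |x i|) (multivariateGaussian 0 R) := by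
    refine integrable_finsetSum _ fun i _ => ?_
    have hmp := measurePreserving_eval_multivariateGaussian (μ := (0 : E m)) hR.1 (i := i)
    have h2 : Integrable (fun t : ℝ => |t|) (gaussianReal ((0 : E m) i) (R i i).toNNReal) := by
      have h3 := memLp_id_gaussianReal (μ := (0 : E m) i) (v := (R i i).toNNReal) 1
      exact (h3.integrable (by norm_num)).abs
    exact hmp.integrable_comp_of_integrable h2
  refine h1.mono' (max_meas m).aestronglyMeasurable (Filter.Eventually.of_forall fun x => ?_)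
  have : Nonempty (Fin m) := ⟨⟨0, hm⟩⟩
  obtain ⟨i, hi⟩ := exists_eq_ciSup_of_finite (f := fun i => x i)
  rw [← hi, Real.norm_eq_abs]
  exact Finset.single_le_sum (f := fun i => |x i|) (fun i _ => abs_nonneg _) (Finset.mem_univ i)

theorem gt_strict {m : ℕ} (hm : 0 < m) (R : Matrix (Fin m) (Fin m) ℝ) (hR : Admissible R)
    (hne : R ≠ 1) (t : ℝ) : multivariateGaussian 0 R {x : E m | t < ⨆ i, x i} <
      multivariateGaussian 0 1 {x : E m | t < ⨆ i, x i} := by
  have e : {x : E m | t < ⨆ i, x i} = {x : E m | ∀ i, x i ≤ t}ᶜ := by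
    ext x
    simp only [Set.mem_ofPred_eq, Set.mem_compl_iff]
    rw [← max_le_iff hm, not_le]
  have hs := strict_R hm R hR hne t
  rw [← eq_one (m := m)] at hs
  rw [e, prob_compl_eq_one_sub (box_meas _), prob_compl_eq_one_sub (box_meas _)]
  exact ((ENNReal.cancel_of_ne ENNReal.one_ne_top).tsub_lt_tsub_iff_left_of_le
    (ENNReal.cancel_of_ne (measure_ne_top _ _)) prob_le_one).2 hs

theorem pos_part {m : ℕ} (μ : Measure (E m)) :
    ∫⁻ x, ENNReal.ofReal (⨆ i, x i) ∂μ = ∫⁻ t in Set.Ioi (0:ℝ), μ {x : E m | t < ⨆ i, x i} := by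
  have hmx := max_meas m
  have h1 : ∀ x : E m, ENNReal.ofReal (⨆ i, x i) = ENNReal.ofReal (max (⨆ i, x i) 0) := by
    intro x
    rcases le_total (⨆ i, x i) 0 with h | h
    · rw [max_eq_right h, ENNReal.ofReal_of_nonpos h, ENNReal.ofReal_zero]
    · rw [max_eq_left h]
  simp only [h1]
  have hfm : Measurable fun x : E m => max (⨆ i, x i) 0 := hmx.max measurable_const
  rw [lintegral_eq_lintegral_meas_lt μ (f := fun x : E m => max (⨆ i, x i) 0)
    (Filter.Eventually.of_forall fun x => le_max_right _ _) hfm.aemeasurable]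
  refine setLIntegral_congr_fun measurableSet_Ioi fun t ht => ?_
  congr 1
  ext x
  simp only [Set.mem_ofPred_eq]
  constructor
  · intro h
    rcases lt_max_iff.1 h with h | h
    · exact h
    · exact absurd h (not_lt.2 (le_of_lt ht))
  · intro h
    exact lt_max_iff.2 (Or.inl h)

theorem neg_part {m : ℕ} (hm : 0 < m) (μ : Measure (E m)) :
    ∫⁻ x, ENNReal.ofReal (-(⨆ i, x i)) ∂μ =
      ∫⁻ t in Set.Ioi (0:ℝ), μ {x : E m | ∀ i, x i ≤ -t} := by
  have hmx := max_meas m
  have h1 : ∀ x : E m, ENNReal.ofReal (-(⨆ i, x i)) = ENNReal.ofReal (max (-(⨆ i, x i)) 0) := by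
    intro x
    rcases le_total (-(⨆ i, x i)) 0 with h | h
    · rw [max_eq_right h, ENNReal.ofReal_of_nonpos h, ENNReal.ofReal_zero]
    · rw [max_eq_left h]
  simp only [h1]
  have hfm : Measurable fun x : E m => max (-(⨆ i, x i)) 0 := hmx.neg.max measurable_const
  rw [lintegral_eq_lintegral_meas_le μ (f := fun x : E m => max (-(⨆ i, x i)) 0)
    (Filter.Eventually.of_forall fun x => le_max_right _ _) hfm.aemeasurable]
  refine setLIntegral_congr_fun measurableSet_Ioi fun t ht => ?_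
  congr 1
  ext x
  simp only [Set.mem_ofPred_eq]
  rw [← max_le_iff hm]
  constructor
  · intro h
    rcases le_max_iff.1 h with h | h
    · linarith
    · exact absurd h (not_le.2 ht)
  · intro h
    exact le_max_iff.2 (Or.inl (by linarith))

theorem mean_R {m : ℕ} (hm : 0 < m) (R : Matrix (Fin m) (Fin m) ℝ) (hR : Admissible R)
    (hne : R ≠ 1) :
    ∫ x : E m, (⨆ i, x i) ∂(multivariateGaussian 0 R) <
      ∫ x : E m, (⨆ i, x i) ∂(multivariateGaussian 0 1) := by
  have i1 := max_int hm R hR.1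
  have i2 := max_int hm 1 (corr_one m)
  rw [integral_eq_lintegral_pos_part_sub_lintegral_neg_part i1,
    integral_eq_lintegral_pos_part_sub_lintegral_neg_part i2]
  have f1 : ∫⁻ x : E m, ENNReal.ofReal (⨆ i, x i) ∂(multivariateGaussian 0 R) ≠ ⊤ :=
    i1.lintegral_lt_top.ne
  have f2 : ∫⁻ x : E m, ENNReal.ofReal (⨆ i, x i) ∂(multivariateGaussian 0 1) ≠ ⊤ :=
    i2.lintegral_lt_top.ne
  have n1 : ∫⁻ x : E m, ENNReal.ofReal (-(⨆ i, x i)) ∂(multivariateGaussian 0 R) ≠ ⊤ :=
    i1.neg.lintegral_lt_top.ne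
  have n2 : ∫⁻ x : E m, ENNReal.ofReal (-(⨆ i, x i)) ∂(multivariateGaussian 0 1) ≠ ⊤ :=
    i2.neg.lintegral_lt_top.ne
  have hA : ∫⁻ x : E m, ENNReal.ofReal (⨆ i, x i) ∂(multivariateGaussian 0 R) <
      ∫⁻ x : E m, ENNReal.ofReal (⨆ i, x i) ∂(multivariateGaussian 0 1) := by
    rw [pos_part, pos_part]
    rw [pos_part] at f1
    have hanti : Antitone fun t : ℝ => multivariateGaussian 0 1 {x : E m | t < ⨆ i, x i} :=
      fun s t hst => measure_mono fun x hx => lt_of_le_of_lt hst hx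
    refine lintegral_strict_mono_of_ae_le_of_ae_lt_on (s := Set.Ioi 0) hanti.measurable.aemeasurable
      f1 ?_ ?_ ?_
    · exact Filter.Eventually.of_forall fun t => (gt_strict hm R hR hne t).le
    · rw [Measure.restrict_apply measurableSet_Ioi, Set.inter_self]
      simp
    · exact Filter.Eventually.of_forall fun t _ => gt_strict hm R hR hne t
  have hB : ∫⁻ x : E m, ENNReal.ofReal (-(⨆ i, x i)) ∂(multivariateGaussian 0 1) ≤
      ∫⁻ x : E m, ENNReal.ofReal (-(⨆ i, x i)) ∂(multivariateGaussian 0 R) := by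
    rw [neg_part hm, neg_part hm]
    refine lintegral_mono fun t => ?_
    have hs := strict_R hm R hR hne (-t)
    rw [← eq_one (m := m)] at hs
    exact hs.le
  have hA' := (ENNReal.toReal_lt_toReal f1 f2).2 hA
  have hB' := (ENNReal.toReal_le_toReal n2 n1).2 hB
  linarith

theorem mean_factor {m : ℕ} (hm : 2 ≤ m) (G : Matrix (Fin m) (Fin m) ℝ) (hG : IsCorr G) :
    ∫ x : E m, (⨆ i, x i) ∂(multivariateGaussian 0 (RG G)) =
      Real.sqrt (((m : ℝ) - 1) / m) * ∫ x : E m, (⨆ i, x i) ∂(multivariateGaussian 0 G) := by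
  have hm2 : (2:ℝ) ≤ m := by exact_mod_cast hm
  have hm0 : (0:ℝ) < m := by linarith
  have hc : (0:ℝ) < ((m : ℝ) - 1) / m := div_pos (by linarith) hm0
  have ha : 0 < Real.sqrt (((m : ℝ) - 1) / m) := Real.sqrt_pos.2 hc
  have : Nonempty (Fin m) := ⟨⟨0, by omega⟩⟩
  have hmx := max_meas m
  have i1 := max_int (by omega : 0 < m) G hG
  rw [← map_RG hm G hG, integral_map (by fun_prop) hmx.aestronglyMeasurable]
  have e1 : ∀ p : E m × ℝ, (⨆ i, (Real.sqrt (((m : ℝ) - 1) / m) • p.1 +
      (WithLp.toLp 2 (fun _ => p.2 / Real.sqrt m) : E m)) i) =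
      Real.sqrt (((m : ℝ) - 1) / m) * ((⨆ i, p.1 i) * 1) +
        (1 / Real.sqrt m) * (1 * p.2) := by
    intro p
    have e2 : ∀ i, (Real.sqrt (((m : ℝ) - 1) / m) • p.1 +
      (WithLp.toLp 2 (fun _ => p.2 / Real.sqrt m) : E m)) i =
      Real.sqrt (((m : ℝ) - 1) / m) * p.1 i + (1 / Real.sqrt m) * p.2 := by
      intro i
      simp
      ring
    simp only [e2, mul_one, one_mul]
    apply le_antisymm
    · refine ciSup_le fun i => ?_
      have := le_ciSup (f := fun i => p.1 i) (Set.finite_range _).bddAbove i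
      have := mul_le_mul_of_nonneg_left this ha.le
      linarith
    · obtain ⟨i, hi⟩ := exists_eq_ciSup_of_finite (f := fun i => p.1 i)
      rw [← hi]
      exact le_ciSup (f := fun i => Real.sqrt (((m : ℝ) - 1) / m) * p.1 i +
        (1 / Real.sqrt m) * p.2) (Set.finite_range _).bddAbove i
  simp only [e1]
  have c1 : Integrable (fun _ : ℝ => (1:ℝ)) g1 := integrable_const 1
  have c2 : Integrable (fun _ : E m => (1:ℝ)) (multivariateGaussian 0 G) := integrable_const 1
  have j1 : Integrable (fun p : E m × ℝ => (⨆ i, p.1 i) * 1) ((multivariateGaussian 0 G).prod g1) :=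
    Integrable.mul_prod (f := fun x : E m => ⨆ i, x i) (g := fun _ : ℝ => (1:ℝ)) i1 c1
  have j2 : Integrable (fun p : E m × ℝ => 1 * p.2) ((multivariateGaussian 0 G).prod g1) :=
    Integrable.mul_prod (f := fun _ : E m => (1:ℝ)) (g := fun t : ℝ => t) c2 id_int
  rw [integral_add (j1.const_mul _) (j2.const_mul _), integral_const_mul, integral_const_mul,
    integral_prod_mul (fun x : E m => ⨆ i, x i) (fun _ : ℝ => (1:ℝ)),
    integral_prod_mul (fun _ : E m => (1:ℝ)) (fun t : ℝ => t)]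
  have z : ∫ t : ℝ, t ∂g1 = 0 := by
    unfold g1
    exact integral_id_gaussianReal
  rw [z]
  simp

/-- strict comparison of the expected maxima -/
theorem mean_G {m : ℕ} (hm : 2 ≤ m) (G : Matrix (Fin m) (Fin m) ℝ) (hG : IsCorr G)
    (hne : G ≠ Gtri m) :
    ∫ x : E m, (⨆ i, x i) ∂(multivariateGaussian 0 G) <
      ∫ x : E m, (⨆ i, x i) ∂(multivariateGaussian 0 (Gtri m)) := by
  have hm2 : (2:ℝ) ≤ m := by exact_mod_cast hm
  have hm0 : (0:ℝ) < m := by linarith
  have hc : (0:ℝ) < ((m : ℝ) - 1) / m := div_pos (by linarith) hm0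
  have ha : 0 < Real.sqrt (((m : ℝ) - 1) / m) := Real.sqrt_pos.2 hc
  have hne' : RG G ≠ 1 := by
    intro h
    rw [← RG_Gtri hm] at h
    exact hne (RG_inj hm _ _ h)
  have h1 := mean_R (by omega : 0 < m) (RG G) (RG_adm hm G hG) hne'
  have h2 := mean_factor hm G hG
  have h3 := mean_factor hm (Gtri m) (Gtri_corr hm)
  rw [RG_Gtri hm] at h3
  rw [h2, h3] at h1
  exact lt_of_mul_lt_mul_left h1 ha.le

end Pool.Agent.Q266.WS
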