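import Pool.Agent.Q266.WS.Gram

/-!
# Exponential moments of the maximum
-/

set_option autoImplicit false

open MeasureTheory ProbabilityTheory
open scoped RealInnerProductSpace ENNReal MatrixOrder

namespace Pool.Agent.Q266.WS

open Pool.Agent.PZ871 (E gm)
open Pool.Agent.TH84.HC

/-- the covariance matrix of the vertices of the regular simplex -/
noncomputable def Gtri (m : ℕ) : Matrix (Fin m) (Fin m) ℝ :=
  ((m : ℝ) / ((m : ℝ) - 1)) • (1 - (1 / (m : ℝ)) • ones m)

/-- the correlation matrix `R` belonging to `G` -/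
noncomputable def RG {m : ℕ} (G : Matrix (Fin m) (Fin m) ℝ) : Matrix (Fin m) (Fin m) ℝ :=
  (((m : ℝ) - 1) / (m : ℝ)) • G + (1 / (m : ℝ)) • ones m

theorem max_meas (m : ℕ) : Measurable (fun x : E m => ⨆ i, x i) := by
  refine Measurable.iSup fun i => ?_
  fun_prop

theorem max_le_iff {m : ℕ} (hm : 0 < m) (x : E m) (c : ℝ) : (⨆ i, x i) ≤ c ↔ ∀ i, x i ≤ c := by
  have : Nonempty (Fin m) := ⟨⟨0, hm⟩⟩
  exact ciSup_le_iff (Set.finite_range _).bddAbove

theorem exp_bound {m : ℕ} (hm : 0 < m) (x : E m) (l : ℝ) :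
    Real.exp (l * ⨆ i, x i) ≤ ∑ i, Real.exp (l * x i) := by
  have : Nonempty (Fin m) := ⟨⟨0, hm⟩⟩
  obtain ⟨i, hi⟩ := exists_eq_ciSup_of_finite (f := fun i => x i)
  rw [← hi]
  exact Finset.single_le_sum (f := fun i => Real.exp (l * x i)) (fun i _ => (Real.exp_pos _).le)
    (Finset.mem_univ i)

theorem exp_int {m : ℕ} (hm : 0 < m) (R : Matrix (Fin m) (Fin m) ℝ) (hR : IsCorr R) (l : ℝ) :
    Integrable (fun x : E m => Real.exp (l * ⨆ i, x i)) (multivariateGaussian 0 R) := by
  have h1 : Integrable (fun x : E m => ∑ i, Real.exp (l * x i)) (multivariateGaussian 0 R) := by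
    refine integrable_finsetSum _ fun i _ => ?_
    have hmp := measurePreserving_eval_multivariateGaussian (μ := (0 : E m)) hR.1 (i := i)
    have h2 : Integrable (fun t : ℝ => Real.exp (l * t))
        (gaussianReal ((0 : E m) i) (R i i).toNNReal) := integrable_exp_mul_gaussianReal l
    exact hmp.integrable_comp_of_integrable h2
  refine h1.mono' ?_ (Filter.Eventually.of_forall fun x => ?_)
  · have := max_meas m
    exact (by fun_prop : Measurable fun x : E m => Real.exp (l * ⨆ i, x i)).aestronglyMeasurable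
  · rw [Real.norm_eq_abs, abs_of_pos (Real.exp_pos _)]
    exact exp_bound hm x l

theorem corr_one (m : ℕ) : IsCorr (1 : Matrix (Fin m) (Fin m) ℝ) :=
  ⟨Matrix.PosSemidef.one, fun i => Matrix.one_apply_eq i⟩

/-- strict comparison of exponential moments, form for `R` -/
theorem mgf_R {m : ℕ} (hm : 0 < m) (R : Matrix (Fin m) (Fin m) ℝ) (hR : Admissible R)
    (hne : R ≠ 1) (l : ℝ) (hl : 0 < l) :
    ∫ x : E m, Real.exp (l * ⨆ i, x i) ∂(multivariateGaussian 0 R) <
      ∫ x : E m, Real.exp (l * ⨆ i, x i) ∂(multivariateGaussian 0 1) := by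
  have hmx := max_meas m
  have hfm : Measurable fun x : E m => Real.exp (l * ⨆ i, x i) := by fun_prop
  have i1 := exp_int hm R hR.1 l
  have i2 := exp_int hm 1 (corr_one m) l
  have nn : ∀ μ : Measure (E m), 0 ≤ᵐ[μ] fun x : E m => Real.exp (l * ⨆ i, x i) :=
    fun μ => Filter.Eventually.of_forall fun x => (Real.exp_pos _).le
  have f1 : ∫⁻ x : E m, ENNReal.ofReal (Real.exp (l * ⨆ i, x i)) ∂(multivariateGaussian 0 R) ≠ ⊤ :=
    i1.lintegral_lt_top.ne
  have f2 : ∫⁻ x : E m, ENNReal.ofReal (Real.exp (l * ⨆ i, x i)) ∂(multivariateGaussian 0 1) ≠ ⊤ :=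
    i2.lintegral_lt_top.ne
  rw [integral_eq_lintegral_of_nonneg_ae (nn _) hfm.aestronglyMeasurable,
    integral_eq_lintegral_of_nonneg_ae (nn _) hfm.aestronglyMeasurable,
    ENNReal.toReal_lt_toReal f1 f2]
  have key : ∀ t : ℝ, 0 < t → multivariateGaussian 0 R {x : E m | t < Real.exp (l * ⨆ i, x i)} <
      multivariateGaussian 0 1 {x : E m | t < Real.exp (l * ⨆ i, x i)} := by
    intro t ht
    have e : {x : E m | t < Real.exp (l * ⨆ i, x i)} = {x : E m | ∀ i, x i ≤ Real.log t / l}ᶜ := by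
      ext x
      simp only [Set.mem_ofPred_eq, Set.mem_compl_iff]
      rw [← max_le_iff hm, not_le, ← Real.log_lt_iff_lt_exp ht, div_lt_iff₀ hl, mul_comm l]
    have hs := strict_R hm R hR hne (Real.log t / l)
    rw [← eq_one (m := m)] at hs
    rw [e, prob_compl_eq_one_sub (box_meas _), prob_compl_eq_one_sub (box_meas _)]
    exact ((ENNReal.cancel_of_ne ENNReal.one_ne_top).tsub_lt_tsub_iff_left_of_le
      (ENNReal.cancel_of_ne (measure_ne_top _ _)) prob_le_one).2 hs
  rw [lintegral_eq_lintegral_meas_lt _ (nn _) hfm.aemeasurable]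
  rw [lintegral_eq_lintegral_meas_lt _ (nn _) hfm.aemeasurable] at f1 ⊢
  have hanti : Antitone fun t : ℝ =>
      multivariateGaussian 0 1 {x : E m | t < Real.exp (l * ⨆ i, x i)} :=
    fun s t hst => measure_mono fun x hx => lt_of_le_of_lt hst hx
  refine lintegral_strict_mono_of_ae_le_of_ae_lt_on (s := Set.Ioi 0) hanti.measurable.aemeasurable
    f1 ?_ ?_ ?_
  · rw [Filter.EventuallyLE, ae_restrict_iff' measurableSet_Ioi]
    exact Filter.Eventually.of_forall fun t ht => (key t ht).le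
  · rw [Measure.restrict_apply measurableSet_Ioi, Set.inter_self]
    simp
  · exact Filter.Eventually.of_forall fun t ht => key t ht

theorem RG_apply {m : ℕ} (G : Matrix (Fin m) (Fin m) ℝ) (i j : Fin m) :
    RG G i j = ((m : ℝ) - 1) / m * G i j + 1 / m := by
  simp [RG, ones]

theorem ones_psd (m : ℕ) : (ones m).PosSemidef := by
  have : ones m = Matrix.vecMulVec (fun _ => (1:ℝ)) (star (fun _ => (1:ℝ))) := by
    ext i j
    simp [ones, Matrix.vecMulVec_apply]
  rw [this]
  exact Matrix.posSemidef_vecMulVec_self_star _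

theorem RG_adm {m : ℕ} (hm : 2 ≤ m) (G : Matrix (Fin m) (Fin m) ℝ) (hG : IsCorr G) :
    Admissible (RG G) := by
  have hm2 : (2:ℝ) ≤ m := by exact_mod_cast hm
  have hm0 : (0:ℝ) < m := by linarith
  have h1 : (0:ℝ) ≤ ((m : ℝ) - 1) / m := div_nonneg (by linarith) hm0.le
  have h2 : ((((m : ℝ) - 1) / m) • G).PosSemidef := hG.1.smul h1
  have h3 : ((1 / (m : ℝ)) • ones m).PosSemidef := (ones_psd m).smul (by positivity)
  refine ⟨⟨h2.add h3, fun i => ?_⟩, ?_⟩
  · rw [RG_apply, hG.2 i]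
    field_simp
    ring
  · have : RG G - (1 / (m : ℝ)) • ones m = (((m : ℝ) - 1) / m) • G := by
      unfold RG
      exact add_sub_cancel_right _ _
    rw [this]
    exact h2

/-- positive semidefiniteness of `1 - J / m` -/
theorem one_sub_psd {m : ℕ} (hm : 0 < m) :
    ((1 : Matrix (Fin m) (Fin m) ℝ) - (1 / (m : ℝ)) • ones m).PosSemidef := by
  have hm0 : (0:ℝ) < m := by exact_mod_cast hm
  have hH : (ones m).IsHermitian := (ones_psd m).1
  have hmul : ones m * ones m = (m : ℝ) • ones m := by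
    ext i j
    simp [ones, Matrix.mul_apply]
  set A : Matrix (Fin m) (Fin m) ℝ := 1 - (1 / (m : ℝ)) • ones m with hA
  have hAH : A.conjTranspose = A := by
    rw [hA, Matrix.conjTranspose_sub, Matrix.conjTranspose_one, Matrix.conjTranspose_smul, hH.eq]
    simp
  have h2 : A.conjTranspose * A = A := by
    rw [hAH, hA, sub_mul, mul_sub, mul_sub, one_mul, mul_one, one_mul, Matrix.smul_mul,
      Matrix.mul_smul, hmul, smul_smul, smul_smul]
    have : 1 / (m : ℝ) * (1 / (m : ℝ)) * m = 1 / m := by field_simp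
    rw [this]
    abel
  rw [← h2]
  exact Matrix.posSemidef_conjTranspose_mul_self A

theorem Gtri_corr {m : ℕ} (hm : 2 ≤ m) : IsCorr (Gtri m) := by
  have hm2 : (2:ℝ) ≤ m := by exact_mod_cast hm
  have hm1 : (0:ℝ) < (m : ℝ) - 1 := by linarith
  refine ⟨(one_sub_psd (by omega)).smul (by positivity), fun i => ?_⟩
  simp only [Gtri, ones, Matrix.smul_apply, Matrix.sub_apply, Matrix.one_apply_eq,
    Matrix.of_apply, smul_eq_mul, mul_one]
  field_simp

theorem RG_Gtri {m : ℕ} (hm : 2 ≤ m) : RG (Gtri m) = 1 := by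
  have hm2 : (2:ℝ) ≤ m := by exact_mod_cast hm
  have hm1 : (m : ℝ) - 1 ≠ 0 := by linarith
  have hm0 : (m : ℝ) ≠ 0 := by linarith
  unfold RG Gtri
  rw [smul_smul]
  have : ((m : ℝ) - 1) / m * (m / ((m : ℝ) - 1)) = 1 := by field_simp
  rw [this, one_smul]
  abel

theorem RG_inj {m : ℕ} (hm : 2 ≤ m) (G G' : Matrix (Fin m) (Fin m) ℝ) (h : RG G = RG G') :
    G = G' := by
  have hm2 : (2:ℝ) ≤ m := by exact_mod_cast hm
  have hm0 : (m : ℝ) ≠ 0 := by linarith
  have hc : ((m : ℝ) - 1) / m ≠ 0 := div_ne_zero (by linarith) hm0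
  ext i j
  have := congrFun (congrFun h i) j
  rw [RG_apply, RG_apply] at this
  exact mul_left_cancel₀ hc (by linarith)

/-- adding an independent common Gaussian variable -/
theorem map_RG {m : ℕ} (hm : 2 ≤ m) (G : Matrix (Fin m) (Fin m) ℝ) (hG : IsCorr G) :
    ((multivariateGaussian 0 G).prod g1).map
      (fun p : E m × ℝ => Real.sqrt (((m : ℝ) - 1) / m) • p.1 +
        (WithLp.toLp 2 (fun _ => p.2 / Real.sqrt m) : E m)) = multivariateGaussian 0 (RG G) := by
  have hm2 : (2:ℝ) ≤ m := by exact_mod_cast hm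
  have hm0 : (0:ℝ) < m := by linarith
  have hc : (0:ℝ) ≤ ((m : ℝ) - 1) / m := div_nonneg (by linarith) hm0.le
  have hmeas : Measurable (fun p : E m × ℝ => Real.sqrt (((m : ℝ) - 1) / m) • p.1 +
        (WithLp.toLp 2 (fun _ => p.2 / Real.sqrt m) : E m)) := by fun_prop
  have : IsProbabilityMeasure (((multivariateGaussian 0 G).prod g1).map
      (fun p : E m × ℝ => Real.sqrt (((m : ℝ) - 1) / m) • p.1 +
        (WithLp.toLp 2 (fun _ => p.2 / Real.sqrt m) : E m))) :=
    Measure.isProbabilityMeasure_map hmeas.aemeasurable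
  apply Measure.ext_of_charFun
  funext t
  have h1 : charFun (((multivariateGaussian 0 G).prod g1).map
      (fun p : E m × ℝ => Real.sqrt (((m : ℝ) - 1) / m) • p.1 +
        (WithLp.toLp 2 (fun _ => p.2 / Real.sqrt m) : E m))) t =
      charFun (multivariateGaussian 0 G) (Real.sqrt (((m : ℝ) - 1) / m) • t) *
        charFun g1 ((∑ i, t i) / Real.sqrt m) := by
    rw [charFun_apply, integral_map hmeas.aemeasurable (by fun_prop), charFun_apply, charFun_apply,
      ← integral_prod_mul]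
    refine integral_congr_ae (Filter.Eventually.of_forall fun p => ?_)
    simp only
    rw [← Complex.exp_add, ← add_mul, ← Complex.ofReal_add]
    congr 3
    rw [inner_add_left, inner_smul_left, inner_smul_right]
    congr 1
    rw [PiLp.inner_apply]
    simp only [RCLike.inner_apply, conj_trivial]
    rw [← Finset.sum_mul]
    ring
  rw [h1, charFun_multivariateGaussian hG.1, charFun_multivariateGaussian (RG_adm hm G hG).1.1,
    charFun_gaussianReal, ← Complex.exp_add]
  congr 1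
  set S : ℝ := ∑ i, t i with hS
  set q : ℝ := (t : Fin m → ℝ) ⬝ᵥ G.mulVec t with hq
  have e1 : (((Real.sqrt (((m : ℝ) - 1) / m) • t : E m) : Fin m → ℝ) ⬝ᵥ
      G.mulVec ((Real.sqrt (((m : ℝ) - 1) / m) • t : E m) : Fin m → ℝ)) =
      ((m : ℝ) - 1) / m * q := by
    have e : ((Real.sqrt (((m : ℝ) - 1) / m) • t : E m) : Fin m → ℝ) =
        Real.sqrt (((m : ℝ) - 1) / m) • (t : Fin m → ℝ) := rfl
    rw [e, Matrix.mulVec_smul, smul_dotProduct, dotProduct_smul, smul_eq_mul, smul_eq_mul,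
      ← mul_assoc, Real.mul_self_sqrt hc]
  have e2 : ((t : Fin m → ℝ) ⬝ᵥ (RG G).mulVec t) = ((m : ℝ) - 1) / m * q + S ^ 2 / m := by
    have hones : (t : Fin m → ℝ) ⬝ᵥ (ones m).mulVec t = S ^ 2 := by
      simp only [dotProduct, Matrix.mulVec, ones, Matrix.of_apply, one_mul]
      rw [← Finset.sum_mul, sq]
    unfold RG
    rw [Matrix.add_mulVec, Matrix.smul_mulVec, Matrix.smul_mulVec, dotProduct_add,
      dotProduct_smul, dotProduct_smul, smul_eq_mul, smul_eq_mul, hones]
    ring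
  rw [e1, e2]
  have e3 : (S / Real.sqrt m) ^ 2 = S ^ 2 / m := by
    rw [div_pow, Real.sq_sqrt hm0.le]
  have e4 : ((S / Real.sqrt m : ℝ) : ℂ) ^ 2 = ((S ^ 2 / m : ℝ) : ℂ) := by
    rw [← e3]
    push_cast
    rfl
  simp only [inner_zero_right, Complex.ofReal_zero, zero_mul, mul_zero, NNReal.coe_one,
    Complex.ofReal_one, one_mul, zero_sub]
  rw [e4]
  push_cast
  ring

/-- factorisation of the exponential moments -/
theorem mgf_factor {m : ℕ} (hm : 2 ≤ m) (G : Matrix (Fin m) (Fin m) ℝ) (hG : IsCorr G) (l : ℝ) :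
    ∫ x : E m, Real.exp (l / Real.sqrt (((m : ℝ) - 1) / m) * ⨆ i, x i)
        ∂(multivariateGaussian 0 (RG G)) =
      (∫ x : E m, Real.exp (l * ⨆ i, x i) ∂(multivariateGaussian 0 G)) *
        ∫ t : ℝ, Real.exp (l / Real.sqrt (((m : ℝ) - 1) / m) * (t / Real.sqrt m)) ∂g1 := by
  have hm2 : (2:ℝ) ≤ m := by exact_mod_cast hm
  have hm0 : (0:ℝ) < m := by linarith
  have hc : (0:ℝ) < ((m : ℝ) - 1) / m := div_pos (by linarith) hm0
  have ha : 0 < Real.sqrt (((m : ℝ) - 1) / m) := Real.sqrt_pos.2 hc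
  have : Nonempty (Fin m) := ⟨⟨0, by omega⟩⟩
  have hmx := max_meas m
  rw [← map_RG hm G hG, integral_map (by fun_prop)
    (by fun_prop : Measurable fun x : E m => Real.exp (l / Real.sqrt (((m : ℝ) - 1) / m) *
      ⨆ i, x i)).aestronglyMeasurable, ← integral_prod_mul]
  refine integral_congr_ae (Filter.Eventually.of_forall fun p => ?_)
  simp only
  rw [← Real.exp_add]
  congr 1
  have e1 : (⨆ i, (Real.sqrt (((m : ℝ) - 1) / m) • p.1 +
      (WithLp.toLp 2 (fun _ => p.2 / Real.sqrt m) : E m)) i) =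
      Real.sqrt (((m : ℝ) - 1) / m) * (⨆ i, p.1 i) + p.2 / Real.sqrt m := by
    have e2 : ∀ i, (Real.sqrt (((m : ℝ) - 1) / m) • p.1 +
      (WithLp.toLp 2 (fun _ => p.2 / Real.sqrt m) : E m)) i =
      Real.sqrt (((m : ℝ) - 1) / m) * p.1 i + p.2 / Real.sqrt m := by
      intro i
      simp
    simp only [e2]
    apply le_antisymm
    · refine ciSup_le fun i => ?_
      have := le_ciSup (f := fun i => p.1 i) (Set.finite_range _).bddAbove i
      have := mul_le_mul_of_nonneg_left this ha.le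
      linarith
    · obtain ⟨i, hi⟩ := exists_eq_ciSup_of_finite (f := fun i => p.1 i)
      rw [← hi]
      exact le_ciSup (f := fun i => Real.sqrt (((m : ℝ) - 1) / m) * p.1 i + p.2 / Real.sqrt m)
        (Set.finite_range _).bddAbove i
  rw [e1]
  field_simp

/-- strict comparison of exponential moments, form for `G` -/
theorem mgf_G {m : ℕ} (hm : 2 ≤ m) (G : Matrix (Fin m) (Fin m) ℝ) (hG : IsCorr G)
    (hne : G ≠ Gtri m) (l : ℝ) (hl : 0 < l) :
    ∫ x : E m, Real.exp (l * ⨆ i, x i) ∂(multivariateGaussian 0 G) <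
      ∫ x : E m, Real.exp (l * ⨆ i, x i) ∂(multivariateGaussian 0 (Gtri m)) := by
  have hm2 : (2:ℝ) ≤ m := by exact_mod_cast hm
  have hm0 : (0:ℝ) < m := by linarith
  have hc : (0:ℝ) < ((m : ℝ) - 1) / m := div_pos (by linarith) hm0
  have ha : 0 < Real.sqrt (((m : ℝ) - 1) / m) := Real.sqrt_pos.2 hc
  have hne' : RG G ≠ 1 := by
    intro h
    rw [← RG_Gtri hm] at h
    exact hne (RG_inj hm _ _ h)
  have h1 := mgf_R (by omega : 0 < m) (RG G) (RG_adm hm G hG) hne'
    (l / Real.sqrt (((m : ℝ) - 1) / m)) (div_pos hl ha)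
  have h2 := mgf_factor hm G hG l
  have h3 := mgf_factor hm (Gtri m) (Gtri_corr hm) l
  rw [RG_Gtri hm] at h3
  rw [h2, h3] at h1
  have h4 : 0 ≤ ∫ t : ℝ, Real.exp (l / Real.sqrt (((m : ℝ) - 1) / m) * (t / Real.sqrt m)) ∂g1 :=
    integral_nonneg fun t => (Real.exp_pos _).le
  exact lt_of_mul_lt_mul_right h1 h4

end Pool.Agent.Q266.WS
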