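import Pool.Agent.Q266.WS.Iter

/-!
# The strict Sidak inequality for boxes
-/

set_option autoImplicit false

open MeasureTheory ProbabilityTheory
open scoped RealInnerProductSpace ENNReal

namespace Pool.Agent.Q266.WS

open Pool.Agent.PZ871 (E gm)
open Pool.Agent.TH84.HC

/-- adding one function -/
theorem sidak_step {n : ℕ} {f : ℝ → ℝ≥0∞} {g : E n → ℝ≥0∞} (hf : LC f) (hg : LC g) (φ : E n)
    (hφ : ‖φ‖ = 1) :
    (∫⁻ t, f t ∂g1) * ∫⁻ w, g w ∂(gm n) ≤ ∫⁻ w, f ⟪w, φ⟫ * g w ∂(gm n) := by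
  have h1 := assoc hf (hg.sec φ)
  rw [resample n φ hφ g hg.meas] at h1
  refine h1.trans (le_of_eq ?_)
  rw [← resample n φ hφ (fun w => f ⟪w, φ⟫ * g w) ((hf.comp_inner φ).meas.mul hg.meas)]
  refine lintegral_congr fun t => ?_
  have hm : Measurable (fun w : E n => g (w + (t - ⟪w, φ⟫) • φ)) := hg.meas.comp (by fun_prop)
  rw [← lintegral_const_mul _ hm]
  refine lintegral_congr fun w => ?_
  have e : ⟪w + (t - ⟪w, φ⟫) • φ, φ⟫ = t := by
    rw [inner_add_left, inner_smul_left, real_inner_self_eq_norm_sq, hφ]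
    simp
  simp only [e]

theorem sidak_many {n : ℕ} {ι : Type*} (s : Finset ι) (f : ι → ℝ → ℝ≥0∞) (φ : ι → E n)
    (hf : ∀ i ∈ s, LC (f i)) (hφ : ∀ i ∈ s, ‖φ i‖ = 1) (g : E n → ℝ≥0∞) (hg : LC g) :
    (∏ i ∈ s, ∫⁻ t, f i t ∂g1) * ∫⁻ w, g w ∂(gm n) ≤
      ∫⁻ w, (∏ i ∈ s, f i ⟪w, φ i⟫) * g w ∂(gm n) := by
  classical
  induction s using Finset.induction_on with
  | empty => simp
  | insert a s ha ih =>
    have hfa := hf a (Finset.mem_insert_self a s)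
    have hφa := hφ a (Finset.mem_insert_self a s)
    have ih' := ih (fun i hi => hf i (Finset.mem_insert_of_mem hi))
      (fun i hi => hφ i (Finset.mem_insert_of_mem hi))
    have hgs : LC (fun w : E n => (∏ i ∈ s, f i ⟪w, φ i⟫) * g w) :=
      (LC.prod s (fun i w => f i ⟪w, φ i⟫)
        (fun i hi => (hf i (Finset.mem_insert_of_mem hi)).comp_inner (φ i))).mul hg
    rw [Finset.prod_insert ha]
    simp only [Finset.prod_insert ha]
    calc (∫⁻ t, f a t ∂g1) * (∏ i ∈ s, ∫⁻ t, f i t ∂g1) * ∫⁻ w, g w ∂(gm n)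
        = (∫⁻ t, f a t ∂g1) * ((∏ i ∈ s, ∫⁻ t, f i t ∂g1) * ∫⁻ w, g w ∂(gm n)) := by ring
      _ ≤ (∫⁻ t, f a t ∂g1) * ∫⁻ w, (∏ i ∈ s, f i ⟪w, φ i⟫) * g w ∂(gm n) :=
          mul_le_mul' le_rfl ih'
      _ ≤ ∫⁻ w, f a ⟪w, φ a⟫ * ((∏ i ∈ s, f i ⟪w, φ i⟫) * g w) ∂(gm n) :=
          sidak_step hfa hgs (φ a) hφa
      _ = _ := lintegral_congr fun w => by ring

/-- strict association -/
theorem assoc_strict {F G : ℝ → ℝ≥0∞} (hF : LC F) (hG : LC G) (S T : Set ℝ) (hS : g1 S ≠ 0)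
    (hT : g1 T ≠ 0)
    (h : ∀ s ∈ S, ∀ t ∈ T, F s * G t + F t * G s < F s * G s + F t * G t) :
    (∫⁻ t, F t ∂g1) * (∫⁻ t, G t ∂g1) < ∫⁻ t, F t * G t ∂g1 := by
  have hp : ∀ s t : ℝ, F s * G t + F t * G s ≤ F s * G s + F t * G t := by
    intro s t
    rcases le_total |s| |t| with h | h
    · have a := hF.mono h
      have b := hG.mono h
      have := rearr a b
      calc F s * G t + F t * G s = F t * G s + F s * G t := add_comm _ _
        _ ≤ F t * G t + F s * G s := this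
        _ = _ := add_comm _ _
    · exact rearr (hF.mono h) (hG.mono h)
  have e1 : ∀ s, ∫⁻ t, (F s * G t + F t * G s) ∂g1 =
      F s * (∫⁻ t, G t ∂g1) + (∫⁻ t, F t ∂g1) * G s := by
    intro s
    rw [lintegral_add_left (hG.meas.const_mul _), lintegral_const_mul _ hG.meas,
      lintegral_mul_const _ hF.meas]
  have hm : Measurable (fun t => F t * G t) := hF.meas.mul hG.meas
  have e2 : ∀ s, ∫⁻ t, (F s * G s + F t * G t) ∂g1 = F s * G s + ∫⁻ t, F t * G t ∂g1 := by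
    intro s
    rw [lintegral_add_left measurable_const, lintegral_const]
    simp
  have b1 : ∀ s t : ℝ, F s * G t + F t * G s ≤ 2 := by
    intro s t
    calc F s * G t + F t * G s ≤ 1 * 1 + 1 * 1 :=
          add_le_add (mul_le_mul' (hF.le1 _) (hG.le1 _)) (mul_le_mul' (hF.le1 _) (hG.le1 _))
      _ = 2 := by norm_num
  have fin1 : ∀ s, ∫⁻ t, (F s * G t + F t * G s) ∂g1 ≤ 2 := by
    intro s
    calc ∫⁻ t, (F s * G t + F t * G s) ∂g1 ≤ ∫⁻ _, 2 ∂g1 := lintegral_mono (b1 s)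
      _ = 2 := by simp
  have inner : ∀ s ∈ S, ∫⁻ t, (F s * G t + F t * G s) ∂g1 < ∫⁻ t, (F s * G s + F t * G t) ∂g1 := by
    intro s hs
    refine lintegral_strict_mono_of_ae_le_of_ae_lt_on
      ((measurable_const.add hm).aemeasurable) ?_ (Filter.Eventually.of_forall (hp s)) hT
      (Filter.Eventually.of_forall fun t ht => h s hs t ht)
    exact ne_top_of_le_ne_top (by norm_num) (fin1 s)
  have outer : ∫⁻ s, ∫⁻ t, (F s * G t + F t * G s) ∂g1 ∂g1 <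
      ∫⁻ s, ∫⁻ t, (F s * G s + F t * G t) ∂g1 ∂g1 := by
    refine lintegral_strict_mono_of_ae_le_of_ae_lt_on ?_ ?_
      (Filter.Eventually.of_forall fun s => lintegral_mono (hp s)) hS
      (Filter.Eventually.of_forall fun s hs => inner s hs)
    · simp only [e2]
      exact (hm.add_const _).aemeasurable
    · have : ∫⁻ s, ∫⁻ t, (F s * G t + F t * G s) ∂g1 ∂g1 ≤ 2 := by
        calc ∫⁻ s, ∫⁻ t, (F s * G t + F t * G s) ∂g1 ∂g1 ≤ ∫⁻ _, 2 ∂g1 := lintegral_mono fin1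
          _ = 2 := by simp
      exact ne_top_of_le_ne_top (by norm_num) this
  have o1 : ∫⁻ s, ∫⁻ t, (F s * G t + F t * G s) ∂g1 ∂g1 =
      2 * ((∫⁻ t, F t ∂g1) * (∫⁻ t, G t ∂g1)) := by
    simp only [e1]
    rw [lintegral_add_left (hF.meas.mul_const _), lintegral_mul_const _ hF.meas,
      lintegral_const_mul _ hG.meas]
    ring
  have o2 : ∫⁻ s, ∫⁻ t, (F s * G s + F t * G t) ∂g1 ∂g1 = 2 * ∫⁻ t, F t * G t ∂g1 := by
    simp only [e2]
    rw [lintegral_add_left hm, lintegral_const]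
    simp only [measure_univ, mul_one]
    ring
  rw [o1, o2] at outer
  exact lt_of_mul_lt_mul_left' outer

/-- the indicator of `(-l, l)` -/
noncomputable def bxl (l t : ℝ) : ℝ≥0∞ := if |t| < l then 1 else 0

theorem bxl_LC {l : ℝ} : LC (bxl l) where
  meas := Measurable.ite (measurableSet_lt (by fun_prop) measurable_const) measurable_const
    measurable_const
  le1 := fun x => by
    unfold bxl
    split_ifs
    · exact le_rfl
    · exact zero_le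
  even := fun x => by unfold bxl; rw [abs_neg]
  lc := fun s h0 h1 x y => by
    have h1' : (0:ℝ) < 1 - s := by linarith
    unfold bxl
    by_cases hx : |x| < l
    · by_cases hy : |y| < l
      · have : |s • x + (1 - s) • y| < l := by
          simp only [smul_eq_mul]
          rw [abs_lt] at hx hy ⊢
          constructor <;> nlinarith [hx.1, hx.2, hy.1, hy.2]
        rw [if_pos hx, if_pos hy, if_pos this]
        simp
      · rw [if_neg hy, ENNReal.zero_rpow_of_pos h1', mul_zero]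
        exact zero_le
    · rw [if_neg hx, ENNReal.zero_rpow_of_pos h0, zero_mul]
      exact zero_le

theorem g1_pos {a b : ℝ} (h : a < b) : g1 (Set.Ioo a b) ≠ 0 := by
  intro h1
  have h2 := gaussianReal_absolutelyContinuous' 0 one_ne_zero h1
  rw [Real.volume_Ioo] at h2
  simp only [ENNReal.ofReal_eq_zero] at h2
  linarith

theorem bxl_pos {l : ℝ} (hl : 0 < l) : ∫⁻ t, bxl l t ∂g1 ≠ 0 := by
  have e : (bxl l) = (Set.Ioo (-l) l).indicator 1 := by
    funext t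
    unfold bxl
    by_cases h : |t| < l
    · rw [if_pos h, Set.indicator_of_mem (by rw [abs_lt] at h; exact h)]
      rfl
    · rw [if_neg h, Set.indicator_of_notMem (by rw [abs_lt] at h; exact h)]
  have : ∫⁻ t, bxl l t ∂g1 = g1 (Set.Ioo (-l) l) := by
    rw [e, lintegral_indicator_one measurableSet_Ioo]
  rw [this]
  exact g1_pos (by linarith)

theorem bxl_top {l : ℝ} : ∫⁻ t, bxl l t ∂g1 ≠ ⊤ := by
  refine ne_top_of_le_ne_top ENNReal.one_ne_top ?_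
  calc ∫⁻ t, bxl l t ∂g1 ≤ ∫⁻ _, 1 ∂g1 := lintegral_mono fun t => bxl_LC.le1 t
    _ = 1 := by simp

/-- the strict Sidak inequality for two slabs -/
theorem pair_strict {n : ℕ} (φ ψ : E n) (hφ : ‖φ‖ = 1) (hψ : ‖ψ‖ = 1) (hρ : ⟪φ, ψ⟫ ≠ 0)
    {l l' : ℝ} (hl : 0 < l) (hl' : 0 < l') :
    (∫⁻ t, bxl l t ∂g1) * (∫⁻ t, bxl l' t ∂g1) <
      ∫⁻ w, bxl l ⟪w, φ⟫ * bxl l' ⟪w, ψ⟫ ∂(gm n) := by
  set g : E n → ℝ≥0∞ := fun w => bxl l' ⟪w, ψ⟫ with hg
  have hgLC : LC g := bxl_LC.comp_inner ψ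
  set G : ℝ → ℝ≥0∞ := fun t => ∫⁻ w, g (w + (t - ⟪w, φ⟫) • φ) ∂(gm n) with hG
  have hGLC : LC G := hgLC.sec φ
  have hGint : ∫⁻ t, G t ∂g1 = ∫⁻ w, g w ∂(gm n) := resample n φ hφ g hgLC.meas
  have h1 : ∫⁻ t, bxl l' t ∂g1 ≤ ∫⁻ t, G t ∂g1 := by
    rw [hGint]
    have := sidak (n := n) ({0} : Finset ℕ) (fun _ => bxl l') (fun _ => ψ)
      (fun i _ => bxl_LC) (fun i _ => hψ)
    simpa using this
  -- `G` tends to zero
  have hlim : Filter.Tendsto (fun N : ℕ => G (N : ℝ)) Filter.atTop (nhds 0) := by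
    have hd := tendsto_lintegral_of_dominated_convergence (μ := gm n)
      (F := fun (N : ℕ) (w : E n) => g (w + ((N:ℝ) - ⟪w, φ⟫) • φ)) (f := fun _ => 0)
      (fun _ => 1) (fun N => hgLC.meas.comp (by fun_prop))
      (fun N => Filter.Eventually.of_forall fun w => hgLC.le1 _) (by simp) ?_
    · simpa using hd
    · refine Filter.Eventually.of_forall fun w => ?_
      refine tendsto_const_nhds.congr' ?_
      have hev : ∀ᶠ N : ℕ in Filter.atTop, (l' + |⟪w, ψ⟫ - ⟪w, φ⟫ * ⟪φ, ψ⟫|) / |⟪φ, ψ⟫| ≤ (N : ℝ) :=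
        (tendsto_natCast_atTop_atTop (R := ℝ)).eventually (Filter.eventually_ge_atTop _)
      filter_upwards [hev] with N hN
      have hr : 0 < |⟪φ, ψ⟫| := abs_pos.2 hρ
      rw [div_le_iff₀ hr] at hN
      have e : ⟪w + ((N:ℝ) - ⟪w, φ⟫) • φ, ψ⟫ =
          (⟪w, ψ⟫ - ⟪w, φ⟫ * ⟪φ, ψ⟫) + (N:ℝ) * ⟪φ, ψ⟫ := by
        rw [inner_add_left, inner_smul_left]
        simp only [conj_trivial]
        ring
      have h3 : ¬ |⟪w + ((N:ℝ) - ⟪w, φ⟫) • φ, ψ⟫| < l' := by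
        rw [e, not_lt]
        have h4 : |(N:ℝ) * ⟪φ, ψ⟫| = (N:ℝ) * |⟪φ, ψ⟫| := by
          rw [abs_mul, abs_of_nonneg (Nat.cast_nonneg N)]
        have h5 := abs_sub_abs_le_abs_sub ((N:ℝ) * ⟪φ, ψ⟫) (-(⟪w, ψ⟫ - ⟪w, φ⟫ * ⟪φ, ψ⟫))
        rw [abs_neg, h4] at h5
        have h6 : (N:ℝ) * ⟪φ, ψ⟫ - -(⟪w, ψ⟫ - ⟪w, φ⟫ * ⟪φ, ψ⟫) =
          (⟪w, ψ⟫ - ⟪w, φ⟫ * ⟪φ, ψ⟫) + (N:ℝ) * ⟪φ, ψ⟫ := by ring
        rw [h6] at h5
        linarith
      simp only [hg, bxl]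
      rw [if_neg h3]
  -- `G` is positive near zero
  have hpos : ∃ δ : ℝ, 0 < δ ∧ δ < l ∧ G δ ≠ 0 := by
    by_contra hcon
    push Not at hcon
    have hz : ∀ t : ℝ, t ≠ 0 → G t = 0 := by
      intro t ht
      have ht' : 0 < |t| := abs_pos.2 ht
      have h2 := hcon (min |t| (l/2)) (lt_min ht' (by linarith))
        (lt_of_le_of_lt (min_le_right _ _) (by linarith))
      have h3 : G t ≤ G (min |t| (l/2)) := by
        refine hGLC.mono ?_
        rw [abs_of_pos (lt_min ht' (by linarith))]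
        exact min_le_left _ _
      rw [h2] at h3
      exact le_antisymm h3 zero_le
    have h4 : ∫⁻ t, G t ∂g1 = 0 := by
      rw [lintegral_eq_zero_iff hGLC.meas]
      have h5 : ∀ᵐ t ∂g1, t ≠ (0:ℝ) := by
        rw [ae_iff]
        simpa using g1_null 0
      filter_upwards [h5] with t ht
      exact hz t ht
    rw [h4] at h1
    exact bxl_pos hl' (le_antisymm h1 zero_le)
  obtain ⟨δ, d0, dl, hδ⟩ := hpos
  have hev2 : ∀ᶠ N : ℕ in Filter.atTop, G (N:ℝ) < G δ :=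
    hlim.eventually (gt_mem_nhds (pos_iff_ne_zero.2 hδ))
  have hev3 : ∀ᶠ N : ℕ in Filter.atTop, l ≤ (N : ℝ) :=
    (tendsto_natCast_atTop_atTop (R := ℝ)).eventually (Filter.eventually_ge_atTop _)
  obtain ⟨N, hN1, hN2⟩ := (hev2.and hev3).exists
  have hst : ∀ s ∈ Set.Ioo (-δ) δ, ∀ t ∈ Set.Ioo (N:ℝ) (N + 1),
      bxl l s * G t + bxl l t * G s < bxl l s * G s + bxl l t * G t := by
    intro s hs t ht
    have hs1 : |s| < δ := by rw [abs_lt]; exact hs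
    have hs2 : |s| < l := by linarith
    have ht0 : (0:ℝ) < t := by linarith [ht.1]
    have ht1 : ¬ |t| < l := by
      rw [abs_of_pos ht0, not_lt]
      linarith [ht.1]
    have ha : G t ≤ G N := by
      refine hGLC.mono ?_
      rw [abs_of_pos ht0, abs_of_nonneg (Nat.cast_nonneg N)]
      exact ht.1.le
    have hb : G δ ≤ G s := by
      refine hGLC.mono ?_
      rw [abs_of_pos d0]
      exact hs1.le
    unfold bxl
    rw [if_pos hs2, if_neg ht1]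
    simp only [one_mul, zero_mul, add_zero]
    exact lt_of_le_of_lt ha (lt_of_lt_of_le hN1 hb)
  have h6 := assoc_strict bxl_LC hGLC (Set.Ioo (-δ) δ) (Set.Ioo (N:ℝ) (N + 1))
    (g1_pos (by linarith)) (g1_pos (by linarith)) hst
  have h7 : ∫⁻ t, bxl l t * G t ∂g1 = ∫⁻ w, bxl l ⟪w, φ⟫ * bxl l' ⟪w, ψ⟫ ∂(gm n) := by
    rw [← resample n φ hφ (fun w => bxl l ⟪w, φ⟫ * bxl l' ⟪w, ψ⟫)
      ((bxl_LC.comp_inner φ).meas.mul hgLC.meas)]
    refine lintegral_congr fun t => ?_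
    have hm : Measurable (fun w : E n => g (w + (t - ⟪w, φ⟫) • φ)) := hgLC.meas.comp (by fun_prop)
    rw [hG]
    simp only
    rw [← lintegral_const_mul _ hm]
    refine lintegral_congr fun w => ?_
    have e : ⟪w + (t - ⟪w, φ⟫) • φ, φ⟫ = t := by
      rw [inner_add_left, inner_smul_left, real_inner_self_eq_norm_sq, hφ]
      simp
    simp only [e, hg]
  rw [← h7]
  exact lt_of_le_of_lt (mul_le_mul' le_rfl h1) h6

/-- the strict Sidak inequality for boxes -/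
theorem sidak_strict {n : ℕ} {ι : Type} [Fintype ι] (φ : ι → E n) (hφ : ∀ i, ‖φ i‖ = 1)
    (l : ι → ℝ) (hl : ∀ i, 0 < l i) (i j : ι) (hij : i ≠ j) (hρ : ⟪φ i, φ j⟫ ≠ 0) :
    ∏ k, ∫⁻ t, bxl (l k) t ∂g1 < ∫⁻ w, ∏ k, bxl (l k) ⟪w, φ k⟫ ∂(gm n) := by
  classical
  set s : Finset ι := (Finset.univ.erase i).erase j with hs
  have hj : j ∈ Finset.univ.erase i := Finset.mem_erase.2 ⟨hij.symm, Finset.mem_univ j⟩
  have hprod : ∀ f : ι → ℝ≥0∞, ∏ k, f k = (∏ k ∈ s, f k) * (f i * f j) := by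
    intro f
    rw [← Finset.mul_prod_erase Finset.univ f (Finset.mem_univ i),
      ← Finset.mul_prod_erase (Finset.univ.erase i) f hj]
    ring
  have h1 := sidak_many (n := n) s (fun k => bxl (l k)) φ (fun k _ => bxl_LC) (fun k _ => hφ k)
    (fun w => bxl (l i) ⟪w, φ i⟫ * bxl (l j) ⟪w, φ j⟫)
    ((bxl_LC.comp_inner (φ i)).mul (bxl_LC.comp_inner (φ j)))
  have h2 := pair_strict (φ i) (φ j) (hφ i) (hφ j) hρ (hl i) (hl j)
  have h3 : (∏ k ∈ s, ∫⁻ t, bxl (l k) t ∂g1) ≠ 0 :=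
    Finset.prod_ne_zero_iff.2 fun k _ => bxl_pos (hl k)
  have h4 : (∏ k ∈ s, ∫⁻ t, bxl (l k) t ∂g1) ≠ ⊤ :=
    ENNReal.prod_ne_top fun k _ => bxl_top
  rw [hprod]
  simp only [fun w : E n => hprod (fun k => bxl (l k) ⟪w, φ k⟫)]
  refine lt_of_lt_of_le ?_ h1
  exact ENNReal.mul_lt_mul_right h3 h4 h2

end Pool.Agent.Q266.WS
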